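import Pool.Agent.H100Z.CS

set_option autoImplicit false

namespace Pool.Agent.Results.MP_4c1ea5_lc.AClosedInvariant

open Filter Topology

/-- `|(A △ B) ∩ [0,n)| / n`, for subsets of `ω` given by their characteristic sequences. -/
noncomputable def rho (A B : ℕ → Bool) (n : ℕ) : ℝ :=
  (((Finset.range n).filter (fun i => A i ≠ B i)).card : ℝ) / (n : ℝ)

/-- `A △ B` has asymptotic density `0`. -/
def CoarselySimilar (A B : ℕ → Bool) : Prop := Tendsto (rho A B) atTop (𝓝 0)

/-- the upper density of `A △ B` -/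
noncomputable def delta (A B : ℕ → Bool) : ℝ := limsup (rho A B) atTop

/-- the set of coarse similarity classes -/
def S : Type := Quot CoarselySimilar

/-- the class `[A]` -/
def cls (A : ℕ → Bool) : S := Quot.mk CoarselySimilar A

/-- `U` is closed under Turing equivalence. -/
def TuringInvariant (U : Set (ℕ → Bool)) : Prop :=
  ∀ A ∈ U, ∀ B : ℕ → Bool,
    TuringEquivalent (fun n => Part.some (B n).toNat) (fun n => Part.some (A n).toNat) → B ∈ U

/-- the subspace `{[A] : A ∈ U}` -/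
def generated (U : Set (ℕ → Bool)) : Set S := cls '' U

/-- closedness in the metric space `(S, δ)`: every class at distance `0` from `𝒰` lies in `𝒰` -/
def DeltaClosed (𝒰 : Set S) : Prop :=
  ∀ A : ℕ → Bool, (∀ ε : ℝ, 0 < ε → ∃ B : ℕ → Bool, cls B ∈ 𝒰 ∧ delta A B < ε) → cls A ∈ 𝒰

theorem cls_eq {A B : ℕ → Bool} : cls A = cls B ↔ CoarselySimilar A B :=
  Quot.eq.trans Pool.Agent.H100Z.CS.sim_equiv.eqvGen_iff

theorem result : ∃ U : Set (ℕ → Bool), TuringInvariant U ∧ (generated U).Nonempty ∧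
    generated U ≠ Set.univ ∧ DeltaClosed (generated U) := by
  obtain ⟨R, hR⟩ := Pool.Agent.H100Z.CS.exists_noncomp
  refine ⟨{A | ¬ Pool.Agent.Helper227.TLe R A}, ?_, ⟨_, _, hR, rfl⟩, ?_, ?_⟩
  · intro A hA B hB h
    exact hA (Pool.Agent.Helper227.TLe.trans h hB.1)
  · intro h
    have h1 : cls (fun n => R (Nat.log 2 n)) ∈ generated {A | ¬ Pool.Agent.Helper227.TLe R A} := by
      rw [h]; trivial
    obtain ⟨B, hB, h2⟩ := h1
    exact hB (Pool.Agent.H100Z.CS.proper_main (cls_eq.1 h2))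
  · intro A hA
    obtain ⟨B, h1, h2⟩ := Pool.Agent.H100Z.CS.closed_main (A := A) (R := R) (fun ε hε => by
      obtain ⟨B, ⟨B0, h1, h2⟩, h3⟩ := hA ε hε
      exact ⟨B, B0, h1, cls_eq.1 h2, h3⟩)
    exact ⟨B, h1, cls_eq.2 h2⟩

end Pool.Agent.Results.MP_4c1ea5_lc.AClosedInvariant
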